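import Mathlib
import Pool.Agent.MP_082264_lc.cl.NotRE

/-!
Realizability of a code by closed (or compact) convex sets in `ℝ³` is not semidecidable.
-/

set_option autoImplicit false

namespace Pool.Agent.Results.MP_082264_lc.ClosedNotRE

/-- The code `(n, list of codewords)` is the code of `n` subsets of `ℝ³` with the property `Φ`. -/
def Realizable (Φ : Set (EuclideanSpace ℝ (Fin 3)) → Prop) (p : ℕ × List (List ℕ)) : Prop :=
  (∀ l ∈ p.2, ∀ i ∈ l, i < p.1) ∧
    ∃ X : ℕ → Set (EuclideanSpace ℝ (Fin 3)), (∀ i, Φ (X i)) ∧ (∀ i, p.1 ≤ i → X i = ∅) ∧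
      {S : Set ℕ | ∃ x : EuclideanSpace ℝ (Fin 3), S = {i | x ∈ X i}} =
        {S : Set ℕ | ∃ l ∈ p.2, S = {i | i ∈ l}}

/-- No recursively enumerable class of codes contains the compact convex codes of `ℝ³` and is
contained in the closed convex codes of `ℝ³`. -/
theorem result (A : ℕ × List (List ℕ) → Prop)
    (lo : ∀ p, Realizable (fun s => Convex ℝ s ∧ IsCompact s) p → A p)
    (hi : ∀ p, A p → Realizable (fun s => Convex ℝ s ∧ IsClosed s) p) : ¬ REPred A :=
  Pool.Agent.MP_082264_lc.Cl.not_re_between A lo hi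

theorem compact_closed (p : ℕ × List (List ℕ))
    (h : Realizable (fun s => Convex ℝ s ∧ IsCompact s) p) :
    Realizable (fun s => Convex ℝ s ∧ IsClosed s) p := by
  obtain ⟨h1, X, h2, h3⟩ := h
  exact ⟨h1, X, fun i => ⟨(h2 i).1, (h2 i).2.isClosed⟩, h3⟩

/-- Closed convex realizability in `ℝ³` is undecidable. -/
theorem closed_undecidable : ¬ ComputablePred (Realizable fun s => Convex ℝ s ∧ IsClosed s) :=
  fun h => result _ compact_closed (fun _ h => h) h.to_re

/-- Compact convex realizability in `ℝ³` is undecidable. -/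
theorem compact_undecidable : ¬ ComputablePred (Realizable fun s => Convex ℝ s ∧ IsCompact s) :=
  fun h => result _ (fun _ h => h) compact_closed h.to_re

end Pool.Agent.Results.MP_082264_lc.ClosedNotRE
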