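import Pool.Agent.MP_082264_lc.Rb.Pat
import Pool.Agent.MP_082264_lc.Rb.Dim
import Pool.Agent.MP_082264_lc.Rb.Sound
import Pool.Agent.MP_082264_lc.Rb.MFrame
import Pool.Agent.MP_082264_lc.Rb.Model

set_option autoImplicit false

namespace Pool.Agent.Results.MP_082264_lc.OpenClosed

/-- Let `d ≥ 3`.  No decidable class `A` of codes contains every code that is realized in `ℝ^d`
by compact convex sets and also by their interiors, and is contained in the codes realized in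
some `ℝ^e` by convex sets that are all open or all closed. -/
theorem result (d : ℕ) (hd : 3 ≤ d) (A : ℕ × List (List ℕ) → Prop)
    (lower : ∀ p : ℕ × List (List ℕ), (∀ l ∈ p.2, ∀ i ∈ l, i < p.1) →
      (∃ X : ℕ → Set (EuclideanSpace ℝ (Fin d)),
        (∀ i, Convex ℝ (X i) ∧ IsCompact (X i)) ∧ (∀ i, p.1 ≤ i → X i = ∅) ∧
        {S : Set ℕ | ∃ x, S = {i | x ∈ X i}} = {S : Set ℕ | ∃ l ∈ p.2, S = {i | i ∈ l}} ∧
        {S : Set ℕ | ∃ x, S = {i | x ∈ interior (X i)}} =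
          {S : Set ℕ | ∃ l ∈ p.2, S = {i | i ∈ l}}) → A p)
    (upper : ∀ p : ℕ × List (List ℕ), A p →
      ∃ (e : ℕ) (X : ℕ → Set (EuclideanSpace ℝ (Fin e))),
        (∀ i, Convex ℝ (X i)) ∧ ((∀ i, IsOpen (X i)) ∨ (∀ i, IsClosed (X i))) ∧
        {S : Set ℕ | ∃ x, S = {i | x ∈ X i}} = {S : Set ℕ | ∃ l ∈ p.2, S = {i | i ∈ l}}) :
    ¬ ComputablePred A :=
  Pool.Agent.MP_082264_lc.Rb.not_computable_dim
    (Pool.Agent.MP_082264_lc.Rb.patStmt Pool.Agent.MP_082264_lc.Rb.sound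
      (Pool.Agent.MP_082264_lc.Rb.model Pool.Agent.MP_082264_lc.Rb.Fr.frame)) hd A lower upper

/-- Open convex realizability in `ℝ^d` is undecidable for `d ≥ 3`. -/
theorem open_fixed (d : ℕ) (hd : 3 ≤ d) :
    ¬ ComputablePred (fun p : ℕ × List (List ℕ) => (∀ l ∈ p.2, ∀ i ∈ l, i < p.1) ∧
      ∃ X : ℕ → Set (EuclideanSpace ℝ (Fin d)),
        (∀ i, Convex ℝ (X i) ∧ IsOpen (X i)) ∧ (∀ i, p.1 ≤ i → X i = ∅) ∧
        {S : Set ℕ | ∃ x, S = {i | x ∈ X i}} = {S : Set ℕ | ∃ l ∈ p.2, S = {i | i ∈ l}}) :=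
  result d hd _
    (fun _ hp ⟨X, h1, h2, _, h4⟩ => ⟨hp, fun i => interior (X i),
      fun i => ⟨(h1 i).1.interior, isOpen_interior⟩, fun i hi => by simp [h2 i hi], h4⟩)
    (fun _ ⟨_, X, h1, _, h3⟩ => ⟨d, X, fun i => (h1 i).1, Or.inl fun i => (h1 i).2, h3⟩)

/-- Closed convex realizability in `ℝ^d` is undecidable for `d ≥ 3`. -/
theorem closed_fixed (d : ℕ) (hd : 3 ≤ d) :
    ¬ ComputablePred (fun p : ℕ × List (List ℕ) => (∀ l ∈ p.2, ∀ i ∈ l, i < p.1) ∧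
      ∃ X : ℕ → Set (EuclideanSpace ℝ (Fin d)),
        (∀ i, Convex ℝ (X i) ∧ IsClosed (X i)) ∧ (∀ i, p.1 ≤ i → X i = ∅) ∧
        {S : Set ℕ | ∃ x, S = {i | x ∈ X i}} = {S : Set ℕ | ∃ l ∈ p.2, S = {i | i ∈ l}}) :=
  result d hd _
    (fun _ hp ⟨X, h1, h2, h3, _⟩ => ⟨hp, X, fun i => ⟨(h1 i).1, (h1 i).2.isClosed⟩, h2, h3⟩)
    (fun _ ⟨_, X, h1, _, h3⟩ => ⟨d, X, fun i => (h1 i).1, Or.inr fun i => (h1 i).2, h3⟩)

/-- Compact convex realizability in `ℝ^d` is undecidable for `d ≥ 3`. -/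
theorem compact_fixed (d : ℕ) (hd : 3 ≤ d) :
    ¬ ComputablePred (fun p : ℕ × List (List ℕ) => (∀ l ∈ p.2, ∀ i ∈ l, i < p.1) ∧
      ∃ X : ℕ → Set (EuclideanSpace ℝ (Fin d)),
        (∀ i, Convex ℝ (X i) ∧ IsCompact (X i)) ∧ (∀ i, p.1 ≤ i → X i = ∅) ∧
        {S : Set ℕ | ∃ x, S = {i | x ∈ X i}} = {S : Set ℕ | ∃ l ∈ p.2, S = {i | i ∈ l}}) :=
  result d hd _
    (fun _ hp ⟨X, h1, h2, h3, _⟩ => ⟨hp, X, h1, h2, h3⟩)
    (fun _ ⟨_, X, h1, _, h3⟩ =>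
      ⟨d, X, fun i => (h1 i).1, Or.inr fun i => (h1 i).2.isClosed, h3⟩)

/-- Open convexity of a code, with the dimension free, is undecidable. -/
theorem open_free :
    ¬ ComputablePred (fun p : ℕ × List (List ℕ) => (∀ l ∈ p.2, ∀ i ∈ l, i < p.1) ∧
      ∃ (d : ℕ) (X : ℕ → Set (EuclideanSpace ℝ (Fin d))),
        (∀ i, Convex ℝ (X i) ∧ IsOpen (X i)) ∧ (∀ i, p.1 ≤ i → X i = ∅) ∧
        {S : Set ℕ | ∃ x, S = {i | x ∈ X i}} = {S : Set ℕ | ∃ l ∈ p.2, S = {i | i ∈ l}}) :=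
  result 3 le_rfl _
    (fun _ hp ⟨X, h1, h2, _, h4⟩ => ⟨hp, 3, fun i => interior (X i),
      fun i => ⟨(h1 i).1.interior, isOpen_interior⟩, fun i hi => by simp [h2 i hi], h4⟩)
    (fun _ ⟨_, d, X, h1, _, h3⟩ => ⟨d, X, fun i => (h1 i).1, Or.inl fun i => (h1 i).2, h3⟩)

/-- Closed convexity of a code, with the dimension free, is undecidable. -/
theorem closed_free :
    ¬ ComputablePred (fun p : ℕ × List (List ℕ) => (∀ l ∈ p.2, ∀ i ∈ l, i < p.1) ∧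
      ∃ (d : ℕ) (X : ℕ → Set (EuclideanSpace ℝ (Fin d))),
        (∀ i, Convex ℝ (X i) ∧ IsClosed (X i)) ∧ (∀ i, p.1 ≤ i → X i = ∅) ∧
        {S : Set ℕ | ∃ x, S = {i | x ∈ X i}} = {S : Set ℕ | ∃ l ∈ p.2, S = {i | i ∈ l}}) :=
  result 3 le_rfl _
    (fun _ hp ⟨X, h1, h2, h3, _⟩ => ⟨hp, 3, X, fun i => ⟨(h1 i).1, (h1 i).2.isClosed⟩, h2, h3⟩)
    (fun _ ⟨_, d, X, h1, _, h3⟩ => ⟨d, X, fun i => (h1 i).1, Or.inr fun i => (h1 i).2, h3⟩)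

end Pool.Agent.Results.MP_082264_lc.OpenClosed
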